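import Pool.Agent.TH793.SB.Defs

set_option autoImplicit false

/-! # The covering lemma and the nested nets lemma -/

namespace Pool.Agent.TH584.SB

open Pool.Agent.TH793.SB

theorem cover : Cover := by
  classical
  intro R
  refine ⟨8 * (8 * R + 1) ^ 3, fun j p S hS hT => ?_⟩
  have hpos : (0 : ℤ) < 2 ^ j := by positivity
  let φ : Site → Site := fun u i => (4 * (u i - p i)) / 2 ^ j
  have h1 : S.card ≤ 8 * (S.image φ).card := by
    refine Finset.card_le_mul_card_image S 8 fun a _ => ?_
    refine hT _ (Finset.filter_subset _ _) fun u hu v hv i => ?_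
    have hu' := congrFun (Finset.mem_filter.1 hu).2 i
    have hv' := congrFun (Finset.mem_filter.1 hv).2 i
    simp only [φ] at hu' hv'
    have e1 := Int.mul_ediv_add_emod (4 * (u i - p i)) (2 ^ j)
    have e2 := Int.mul_ediv_add_emod (4 * (v i - p i)) (2 ^ j)
    have m1 := Int.emod_nonneg (4 * (u i - p i)) hpos.ne'
    have m2 := Int.emod_nonneg (4 * (v i - p i)) hpos.ne'
    have m3 := Int.emod_lt_of_pos (4 * (u i - p i)) hpos
    have m4 := Int.emod_lt_of_pos (4 * (v i - p i)) hpos
    rw [hu'] at e1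
    rw [hv'] at e2
    have h5 : |4 * (u i - v i)| < 2 ^ j := by
      rw [abs_lt]
      constructor <;> linarith
    rwa [abs_mul, abs_of_pos (by norm_num : (0 : ℤ) < 4)] at h5
  have h2 : S.image φ ⊆ Fintype.piFinset fun _ : Fin 3 => Finset.Icc (-(4 * (R : ℤ))) (4 * R) := by
    intro a ha
    obtain ⟨u, hu, rfl⟩ := Finset.mem_image.1 ha
    rw [Fintype.mem_piFinset]
    intro i
    have h3 := abs_le.1 (hS u hu i)
    rw [Finset.mem_Icc]
    constructor
    · rw [Int.le_ediv_iff_mul_le hpos]
      nlinarith [h3.1]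
    · apply Int.ediv_le_of_le_mul hpos
      nlinarith [h3.2]
  have h3 : (S.image φ).card ≤ (8 * R + 1) ^ 3 := by
    refine (Finset.card_le_card h2).trans ?_
    rw [Fintype.card_piFinset]
    simp only [Int.card_Icc, Finset.prod_const, Finset.card_univ, Fintype.card_fin]
    refine Nat.pow_le_pow_left ?_ 3
    omega
  calc S.card ≤ 8 * (S.image φ).card := h1
    _ ≤ 8 * (8 * R + 1) ^ 3 := Nat.mul_le_mul_left _ h3

/-- `j`-separated sites -/
def Sep (j : ℕ) (x y : Site) : Prop := ∃ i, (2 : ℤ) ^ j ≤ 16 * |x i - y i|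

lemma exists_net (j : ℕ) (S : Finset Site) : ∃ T ⊆ S, (∀ x ∈ T, ∀ y ∈ T, x ≠ y → Sep j x y) ∧
    ∀ x ∈ S, ∃ y ∈ T, ∀ i, 16 * |x i - y i| < 2 ^ j := by
  classical
  induction S using Finset.induction_on with
  | empty => exact ⟨∅, Finset.Subset.refl _, by simp, by simp⟩
  | insert a S ha ih =>
    obtain ⟨T, hTS, h1, h2⟩ := ih
    by_cases h : ∃ y ∈ T, ∀ i, 16 * |a i - y i| < 2 ^ j
    · refine ⟨T, hTS.trans (Finset.subset_insert _ _), h1, fun x hx => ?_⟩
      rcases Finset.mem_insert.1 hx with rfl | hx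
      · exact h
      · exact h2 x hx
    · push Not at h
      refine ⟨insert a T, Finset.insert_subset_insert _ hTS, fun x hx y hy hxy => ?_,
        fun x hx => ?_⟩
      · rcases Finset.mem_insert.1 hx with rfl | hx
        · rcases Finset.mem_insert.1 hy with rfl | hy
          · exact absurd rfl hxy
          · obtain ⟨i, hi⟩ := h y hy
            exact ⟨i, hi⟩
        · rcases Finset.mem_insert.1 hy with hya | hy
          · obtain ⟨i, hi⟩ := h x hx
            subst hya
            exact ⟨i, by rwa [abs_sub_comm]⟩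
          · exact h1 x hx y hy hxy
      · rcases Finset.mem_insert.1 hx with rfl | hx
        · exact ⟨x, Finset.mem_insert_self _ _, fun i => by simp⟩
        · obtain ⟨y, hy, hy'⟩ := h2 x hx
          exact ⟨y, Finset.mem_insert_of_mem hy, hy'⟩

/-- a maximal `j`-separated subset -/
noncomputable def net (j : ℕ) (S : Finset Site) : Finset Site := (exists_net j S).choose

lemma net_sub (j : ℕ) (S : Finset Site) : net j S ⊆ S := (exists_net j S).choose_spec.1

lemma net_sep (j : ℕ) (S : Finset Site) : ∀ x ∈ net j S, ∀ y ∈ net j S, x ≠ y → Sep j x y :=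
  (exists_net j S).choose_spec.2.1

lemma net_cov (j : ℕ) (S : Finset Site) : ∀ x ∈ S, ∃ y ∈ net j S, ∀ i, 16 * |x i - y i| < 2 ^ j :=
  (exists_net j S).choose_spec.2.2

/-- nested nets -/
noncomputable def nt (B : Finset Site) : ℕ → Finset Site
  | 0 => B
  | j + 1 => net (j + 1) (nt B j)

lemma nt_anti (B : Finset Site) : Antitone (nt B) :=
  antitone_nat_of_succ_le fun j => net_sub (j + 1) (nt B j)

lemma nt_cov (B : Finset Site) (j : ℕ) : ∀ b ∈ B, ∃ x ∈ nt B j, ∀ i, 8 * |b i - x i| ≤ 2 ^ j := by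
  induction j with
  | zero => exact fun b hb => ⟨b, hb, fun i => by simp⟩
  | succ j ih =>
    intro b hb
    obtain ⟨x, hx, hbx⟩ := ih b hb
    obtain ⟨y, hy, hxy⟩ := net_cov (j + 1) (nt B j) x hx
    refine ⟨y, hy, fun i => ?_⟩
    have h1 := hbx i
    have h2 := hxy i
    have h3 := abs_sub_le (b i) (x i) (y i)
    rw [pow_succ] at h2 ⊢
    linarith

theorem nets : Nets := by
  classical
  obtain ⟨C0, hC0⟩ := cover 11
  refine ⟨9 * C0, fun B M W hW hT => ?_⟩
  have key : ∀ j < M, (W j).card ≤ C0 * (nt B j \ nt B (j + 9)).card := by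
    intro j hj
    have hpos : (0 : ℤ) < 2 ^ j := by positivity
    have hsub : W j ⊆ (nt B j \ nt B (j + 9)).biUnion fun z =>
        (W j).filter fun u => u ∈ ball z ((11 : ℕ) * 2 ^ j) := by
      intro u hu
      obtain ⟨b, hb, b', hb', h1, h2, i, h3⟩ := hW j hj u hu
      obtain ⟨x, hx, hbx⟩ := nt_cov B j b hb
      obtain ⟨y, hy, hby⟩ := nt_cov B j b' hb'
      have hne : x ≠ y := by
        rintro rfl
        have e1 := hbx i
        have e2 := hby i
        have e3 := abs_sub_le (b i) (x i) (b' i)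
        rw [abs_sub_comm (x i)] at e3
        linarith
      have hux : u ∈ ball x ((11 : ℕ) * 2 ^ j) := by
        intro l
        have e1 := hbx l
        have e2 := h1 l
        have e3 := abs_sub_le (u l) (b l) (x l)
        rw [abs_sub_comm (u l) (b l)] at e3
        push_cast
        linarith
      have huy : u ∈ ball y ((11 : ℕ) * 2 ^ j) := by
        intro l
        have e1 := hby l
        have e2 := h2 l
        have e3 := abs_sub_le (u l) (b' l) (y l)
        rw [abs_sub_comm (u l) (b' l)] at e3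
        push_cast
        linarith
      have hnot : ¬ (x ∈ nt B (j + 9) ∧ y ∈ nt B (j + 9)) := by
        rintro ⟨hx9, hy9⟩
        obtain ⟨l, hl⟩ := net_sep (j + 9) (nt B (j + 8)) x hx9 y hy9 hne
        have e1 := hbx l
        have e2 := hby l
        have e3 := h1 l
        have e4 := h2 l
        have e5 := abs_sub_le (x l) (b l) (y l)
        have e6 := abs_sub_le (b l) (u l) (y l)
        have e7 := abs_sub_le (u l) (b' l) (y l)
        rw [abs_sub_comm (x l) (b l)] at e5
        rw [abs_sub_comm (u l) (b' l)] at e7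
        have e8 : (2 : ℤ) ^ (j + 9) = 512 * 2 ^ j := by ring
        rw [e8] at hl
        linarith
      rw [Finset.mem_biUnion]
      by_cases hx9 : x ∈ nt B (j + 9)
      · refine ⟨y, Finset.mem_sdiff.2 ⟨hy, fun hy9 => hnot ⟨hx9, hy9⟩⟩, ?_⟩
        exact Finset.mem_filter.2 ⟨hu, huy⟩
      · refine ⟨x, Finset.mem_sdiff.2 ⟨hx, hx9⟩, ?_⟩
        exact Finset.mem_filter.2 ⟨hu, hux⟩
    refine (Finset.card_le_card hsub).trans ?_
    rw [mul_comm C0]
    refine Finset.card_biUnion_le_card_mul _ _ _ fun z _ => ?_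
    refine hC0 j z _ (fun u hu => (Finset.mem_filter.1 hu).2) fun T hTs hTd => ?_
    exact hT j hj T (hTs.trans (Finset.filter_subset _ _)) hTd
  have hD : ∀ j, (nt B j \ nt B (j + 9)).card + (nt B (j + 9)).card = (nt B j).card := fun j =>
    Finset.card_sdiff_add_card_eq_card (nt_anti B (Nat.le_add_right j 9))
  have hsum : ∑ j ∈ Finset.range M, (nt B j \ nt B (j + 9)).card ≤ 9 * B.card := by
    have h1 : ∑ j ∈ Finset.range M, (nt B j \ nt B (j + 9)).card +
        ∑ j ∈ Finset.range M, (nt B (j + 9)).card = ∑ j ∈ Finset.range M, (nt B j).card := by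
      rw [← Finset.sum_add_distrib]
      exact Finset.sum_congr rfl fun j _ => hD j
    have h2 : ∑ j ∈ Finset.range M, (nt B j).card ≤ ∑ j ∈ Finset.range (9 + M), (nt B j).card :=
      Finset.sum_le_sum_of_subset (Finset.range_mono (by omega))
    have h3 : ∑ j ∈ Finset.range (9 + M), (nt B j).card = ∑ j ∈ Finset.range 9, (nt B j).card +
        ∑ j ∈ Finset.range M, (nt B (j + 9)).card := by
      rw [Finset.sum_range_add]
      congr 1
      exact Finset.sum_congr rfl fun j _ => by rw [add_comm]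
    have h4 : ∑ j ∈ Finset.range 9, (nt B j).card ≤ 9 * B.card := by
      calc ∑ j ∈ Finset.range 9, (nt B j).card ≤ ∑ _j ∈ Finset.range 9, B.card :=
            Finset.sum_le_sum fun j _ => Finset.card_le_card (nt_anti B (Nat.zero_le j))
        _ = 9 * B.card := by simp
    omega
  calc ∑ j ∈ Finset.range M, (W j).card
      ≤ ∑ j ∈ Finset.range M, C0 * (nt B j \ nt B (j + 9)).card :=
        Finset.sum_le_sum fun j hj => key j (Finset.mem_range.1 hj)
    _ = C0 * ∑ j ∈ Finset.range M, (nt B j \ nt B (j + 9)).card := by rw [Finset.mul_sum]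
    _ ≤ C0 * (9 * B.card) := Nat.mul_le_mul_left _ hsum
    _ = 9 * C0 * B.card := by ring

end Pool.Agent.TH584.SB
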